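import Pool.Agent.H501.G.R_pool_sql_team_seeded_3997aac3.Q279.FB.Comp

/-!
# The coefficients of `E_6/(j - 2304)` modulo `5^15`
-/

set_option autoImplicit false

namespace Q279.FB

open PowerSeries Q279.Pack

/-- `∑ σ_3(n) q^n` -/
noncomputable def zA : ℤ⟦X⟧ := mk fun n => ((∑ d ∈ n.divisors, d ^ 3 : ℕ) : ℤ)

/-- `∑ σ_5(n) q^n` -/
noncomputable def zB : ℤ⟦X⟧ := mk fun n => ((∑ d ∈ n.divisors, d ^ 5 : ℕ) : ℤ)

/-- `∑ (5 σ_3(n) + 7 σ_5(n))/12 q^n` -/
noncomputable def zQ : ℤ⟦X⟧ := mk fun n => ∑ d ∈ n.divisors, ((5 * (d : ℤ) ^ 3 + 7 * (d : ℤ) ^ 5) / 12)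

/-- `E_4` -/
noncomputable def z4 : ℤ⟦X⟧ := 1 + 240 * zA

/-- `E_6` -/
noncomputable def z6 : ℤ⟦X⟧ := 1 - 504 * zB

/-- `Δ` -/
noncomputable def zD : ℤ⟦X⟧ := zQ + 100 * zA ^ 2 + 8000 * zA ^ 3 - 147 * zB ^ 2

theorem twelve_aux : ∀ x : ZMod 12, 5 * x ^ 3 + 7 * x ^ 5 = 0 := by decide

theorem twelve_dvd (d : ℤ) : (12 : ℤ) ∣ 5 * d ^ 3 + 7 * d ^ 5 := by
  have h := twelve_aux (d : ZMod 12)
  have h2 : ((5 * d ^ 3 + 7 * d ^ 5 : ℤ) : ZMod 12) = 0 := by
    push_cast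
    exact h
  exact (ZMod.intCast_zmod_eq_zero_iff_dvd _ 12).1 h2

theorem twelve_Q : 12 * zQ = 5 * zA + 7 * zB := by
  ext n
  have e12 : (12 : ℤ⟦X⟧) = C 12 := (map_ofNat C 12).symm
  have e5 : (5 : ℤ⟦X⟧) = C 5 := (map_ofNat C 5).symm
  have e7 : (7 : ℤ⟦X⟧) = C 7 := (map_ofNat C 7).symm
  rw [e12, e5, e7, map_add, coeff_C_mul, coeff_C_mul, coeff_C_mul, zQ, zA, zB, coeff_mk, coeff_mk,
    coeff_mk]
  push_cast
  rw [Finset.mul_sum, Finset.mul_sum, Finset.mul_sum, ← Finset.sum_add_distrib]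
  refine Finset.sum_congr rfl fun d _ => ?_
  exact Int.mul_ediv_cancel' (twelve_dvd d)

theorem disc : 1728 * zD = z4 ^ 3 - z6 ^ 2 := by
  have h := twelve_Q
  unfold zD z4 z6
  linear_combination 144 * h

theorem const_A : constantCoeff zA = 0 := by
  rw [← coeff_zero_eq_constantCoeff_apply, zA, coeff_mk]; simp

theorem const_B : constantCoeff zB = 0 := by
  rw [← coeff_zero_eq_constantCoeff_apply, zB, coeff_mk]; simp

theorem const_Q : constantCoeff zQ = 0 := by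
  rw [← coeff_zero_eq_constantCoeff_apply, zQ, coeff_mk]; simp

theorem const_D : constantCoeff zD = 0 := by
  unfold zD
  simp [const_A, const_B, const_Q]

/-- the denominator -/
noncomputable def zT : ℤ⟦X⟧ := z4 ^ 3 - 2304 * zD

theorem const_T : constantCoeff zT = 1 := by
  unfold zT z4
  simp [const_A, const_D]

/-- `E_6 Δ/(E_4^3 - 2304 Δ)` -/
noncomputable def zF : ℤ⟦X⟧ := z6 * zD * invOfUnit zT 1

theorem T_inv : zT * invOfUnit zT 1 = 1 := mul_invOfUnit zT 1 (by simp [const_T])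

theorem zF_mul : zF * zT = z6 * zD := by
  unfold zF
  rw [mul_assoc, mul_comm (invOfUnit zT 1), T_inv, mul_one]

theorem D_coeff_one : coeff 1 zD = 1 := by
  have e1 : (100 : ℤ⟦X⟧) = C 100 := (map_ofNat C 100).symm
  have e2 : (8000 : ℤ⟦X⟧) = C 8000 := (map_ofNat C 8000).symm
  have e3 : (147 : ℤ⟦X⟧) = C 147 := (map_ofNat C 147).symm
  have h3 : coeff 1 (zA ^ 3) = 0 := by
    have := X_dvd_iff.2 const_A
    have h2 : (X : ℤ⟦X⟧) ^ 2 ∣ zA ^ 3 := (pow_dvd_pow _ (by norm_num)).trans (pow_dvd_pow_of_dvd this 3)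
    exact X_pow_dvd_iff.1 h2 1 (by norm_num)
  have h2 : ∀ F : ℤ⟦X⟧, constantCoeff F = 0 → coeff 1 (F ^ 2) = 0 := by
    intro F hF
    have h2 : (X : ℤ⟦X⟧) ^ 2 ∣ F ^ 2 := pow_dvd_pow_of_dvd (X_dvd_iff.2 hF) 2
    exact X_pow_dvd_iff.1 h2 1 (by norm_num)
  unfold zD
  rw [e1, e2, e3, map_sub, map_add, map_add, coeff_C_mul, coeff_C_mul, coeff_C_mul, h3,
    h2 _ const_A, h2 _ const_B, zQ, coeff_mk]
  norm_num

/-! ### reduction modulo `5^15` -/

/-- reduction -/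
noncomputable abbrev rm : ℤ⟦X⟧ →+* (ZMod M)⟦X⟧ := PowerSeries.map (Int.castRingHom (ZMod M))

theorem hM0 : 0 < M := by norm_num

theorem M_zero : (30517578125 : ZMod M) = 0 := by
  have := ZMod.natCast_self M
  exact_mod_cast this

theorem C_num (n : ℕ) : (C (n : ZMod M) : (ZMod M)⟦X⟧) = (n : (ZMod M)⟦X⟧) := map_natCast C n

theorem M_zero' : (30517578125 : (ZMod M)⟦X⟧) = 0 := by
  have h := congrArg (C (R := ZMod M)) M_zero
  rwa [map_zero, map_ofNat] at h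

theorem kg_eq : kg = red 84 M 12 (inr 12 kv 1) := by unfold kg; rfl

theorem rA : Rep 84 M 12 ka (rm zA) := by
  unfold ka
  have h := WRep_sieve (b := 84) (M := M) (K := 12) (fun d => Nat.pow d 3) (by norm_num) (by rfl)
    (by
      intro d hd
      have h1 : d ^ 3 ≤ (2 ^ 12) ^ 3 := Nat.pow_le_pow_left hd.le 3
      change d ^ 3 * 2 ^ 12 < 2 ^ 84
      calc d ^ 3 * 2 ^ 12 ≤ (2 ^ 12) ^ 3 * 2 ^ 12 := Nat.mul_le_mul_right _ h1
        _ < 2 ^ 84 := by norm_num)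
  have h2 := h.red hM0
  have h3 : (mk fun n => ((∑ d ∈ n.divisors, Nat.pow d 3 : ℕ) : ZMod M)) = rm zA := by
    ext n
    rw [coeff_mk, coeff_map, zA, coeff_mk]
    simp
  rw [h3] at h2
  exact h2

theorem rB : Rep 84 M 12 kb (rm zB) := by
  unfold kb
  have h := WRep_sieve (b := 84) (M := M) (K := 12) (fun d => Nat.pow d 5) (by norm_num) (by rfl)
    (by
      intro d hd
      have h1 : d ^ 5 ≤ (2 ^ 12) ^ 5 := Nat.pow_le_pow_left hd.le 5
      change d ^ 5 * 2 ^ 12 < 2 ^ 84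
      calc d ^ 5 * 2 ^ 12 ≤ (2 ^ 12) ^ 5 * 2 ^ 12 := Nat.mul_le_mul_right _ h1
        _ < 2 ^ 84 := by norm_num)
  have h2 := h.red hM0
  have h3 : (mk fun n => ((∑ d ∈ n.divisors, Nat.pow d 5 : ℕ) : ZMod M)) = rm zB := by
    ext n
    rw [coeff_mk, coeff_map, zB, coeff_mk]
    simp
  rw [h3] at h2
  exact h2

/-- transport along an equality -/
theorem Rep.cast {x : ℕ} {F G : (ZMod M)⟦X⟧} (h : Rep 84 M 12 x F) (e : F = G) :
    Rep 84 M 12 x G := e ▸ h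

theorem r4 : Rep 84 M 12 k4 (rm z4) := by
  have h0 := (WRep_lin 1 240 0 (by norm_num) (by norm_num) hM0 rA rA).red hM0
  unfold k4
  refine Rep.cast h0 ?_
  rw [C_num, C_num, C_num]
  unfold z4
  rw [map_add, map_mul, map_one, map_ofNat]
  push_cast
  ring

theorem r6 : Rep 84 M 12 k6 (rm z6) := by
  have h0 := (WRep_lin 1 30517577621 0 (by norm_num) (by norm_num) hM0 rB rB).red hM0
  unfold k6
  refine Rep.cast h0 ?_
  rw [C_num, C_num, C_num]
  unfold z6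
  rw [map_sub, map_mul, map_one, map_ofNat]
  push_cast
  linear_combination rm zB * M_zero'

theorem hbM : 2 ^ 12 * (M * M) ≤ 2 ^ 84 := by norm_num

theorem r4s : Rep 84 M 12 k4s (rm z4 * rm z4) := by
  unfold k4s; exact (WRep_mul hM0 hbM r4 r4).red hM0
theorem r4c : Rep 84 M 12 k4c (rm z4 * rm z4 * rm z4) := by
  unfold k4c; exact (WRep_mul hM0 hbM r4s r4).red hM0
theorem r6s : Rep 84 M 12 k6s (rm z6 * rm z6) := by
  unfold k6s; exact (WRep_mul hM0 hbM r6 r6).red hM0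

theorem rD : Rep 84 M 12 kd (rm zD) := by
  have h0 := (WRep_lin 0 16865906892 13651671233 (by norm_num) (by norm_num) hM0 r4c r6s).red hM0
  unfold kd
  refine Rep.cast h0 ?_
  rw [C_num, C_num, C_num]
  have h := congrArg rm disc
  rw [map_mul, map_sub, map_pow, map_pow, map_ofNat] at h
  push_cast
  -- `16865906892 * 1728 = 1 + 955 * M`
  have h2 : (16865906892 * 1728 : (ZMod M)⟦X⟧) = 1 + 955 * 30517578125 := by norm_num
  linear_combination (-16865906892) * h + rm zD * h2 + (955 * rm zD + rm z6 ^ 2) * M_zero'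

theorem rT : Rep 84 M 12 kt (rm zT) := by
  have h0 := (WRep_lin 0 1 30517575821 (by norm_num) (by norm_num) hM0 r4c rD).red hM0
  unfold kt
  refine Rep.cast h0 ?_
  rw [C_num, C_num, C_num]
  unfold zT
  rw [map_sub, map_mul, map_pow, map_ofNat]
  push_cast
  linear_combination rm zD * M_zero'

theorem rf0 : Rep 84 M 12 kf0 (rm z6 * rm zD) := by
  unfold kf0; exact (WRep_mul hM0 hbM r6 rD).red hM0

theorem beq_eq {a b : ℕ} (h : Nat.beq a b = true) : a = b := Nat.eq_of_beq_eq_true h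

theorem coeff_zF {i : ℕ} (hi : i < 2 ^ 12) : ((coeff i zF : ℤ) : ZMod M) = (dg kf i : ℕ) := by
  have hc := chk
  simp only [Bool.and_eq_true] at hc
  obtain ⟨G, hG⟩ := exists_Rep (b := 84) (M := M) (K := 12) hM0 (inr 12 kv 1)
  rw [← kg_eq] at hG
  have h1 : Rep 84 M 12 (red 84 M 12 (Nat.mul kt kg)) (rm zT * G) :=
    (WRep_mul hM0 hbM rT hG).red hM0
  rw [beq_eq hc.1] at h1
  have h2 : (X : (ZMod M)⟦X⟧) ^ (2 ^ 12) ∣ rm zT * G - 1 := by
    rw [X_pow_dvd_iff]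
    intro m hm
    rw [map_sub, h1.coeff_eq (by norm_num) (Rep_one (by norm_num)) hm, sub_self]
  have h3 : Rep 84 M 12 kf (rm z6 * rm zD * G) := by
    unfold kf; exact (WRep_mul hM0 hbM rf0 hG).red hM0
  have h4 := h3.digit (by norm_num) hi
  have h5 : rm zT * rm (invOfUnit zT 1) = 1 := by rw [← map_mul, T_inv, map_one]
  have h6 : (X : (ZMod M)⟦X⟧) ^ (2 ^ 12) ∣ rm zF - rm z6 * rm zD * G := by
    obtain ⟨R, hR⟩ := h2
    refine ⟨-(rm z6 * rm zD * rm (invOfUnit zT 1) * R), ?_⟩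
    unfold zF
    rw [map_mul, map_mul]
    linear_combination (-(rm z6 * rm zD * rm (invOfUnit zT 1))) * hR + (rm z6 * rm zD * G) * h5
  have h7 := X_pow_dvd_iff.1 h6 i hi
  rw [map_sub, sub_eq_zero, coeff_map] at h7
  rw [eq_intCast] at h7
  rw [h7, h4]
  rfl

theorem vals : ((coeff 1 zF : ℤ) : ZMod M) = 1 ∧ ((coeff 5 zF : ℤ) : ZMod M) = 17861451146 ∧
    ((coeff 25 zF : ℤ) : ZMod M) = 19057055351 ∧ ((coeff 125 zF : ℤ) : ZMod M) = 6070835631 ∧
    ((coeff 625 zF : ℤ) : ZMod M) = 9709971436 ∧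
    ((coeff 3125 zF : ℤ) : ZMod M) = 29454276391 := by
  have hc := chk
  simp only [Bool.and_eq_true] at hc
  obtain ⟨-, h1, h2, h3, h4, h5, h6⟩ := hc
  refine ⟨?_, ?_, ?_, ?_, ?_, ?_⟩
  · rw [coeff_zF (by norm_num), beq_eq h1]; norm_num
  · rw [coeff_zF (by norm_num), beq_eq h2]; norm_num
  · rw [coeff_zF (by norm_num), beq_eq h3]; norm_num
  · rw [coeff_zF (by norm_num), beq_eq h4]; norm_num
  · rw [coeff_zF (by norm_num), beq_eq h5]; norm_num
  · rw [coeff_zF (by norm_num), beq_eq h6]; norm_num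

/-- the alternating combination is not divisible by `5^15` -/
theorem not_dvd : ¬ ((5 : ℤ) ^ 15 ∣ coeff 3125 zF - 11 * coeff 625 zF - 495 * coeff 125 zF +
    12375 * coeff 25 zF + 171875 * coeff 5 zF - 9765625 * coeff 1 zF) := by
  intro h
  obtain ⟨h1, h2, h3, h4, h5, h6⟩ := vals
  have h7 : (((coeff 3125 zF - 11 * coeff 625 zF - 495 * coeff 125 zF +
    12375 * coeff 25 zF + 171875 * coeff 5 zF - 9765625 * coeff 1 zF : ℤ)) : ZMod M) = 0 := by
    rw [ZMod.intCast_zmod_eq_zero_iff_dvd]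
    have e : ((M : ℕ) : ℤ) = 5 ^ 15 := by norm_num
    rw [e]
    exact h
  push_cast at h7
  rw [h1, h2, h3, h4, h5, h6] at h7
  have h8 : ((12207031250 : ℕ) : ZMod M) = 0 := by
    rw [← h7]
    have h9 : ((3302685546875000 : ℕ) : ZMod M) = ((12207031250 : ℕ) : ZMod M) := by
      rw [ZMod.natCast_eq_natCast_iff]
      norm_num [Nat.ModEq]
    rw [← h9]
    push_cast
    ring
  rw [ZMod.natCast_eq_zero_iff] at h8
  norm_num at h8

end Q279.FB
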